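import Pool.Agent.Helper32.OIP.Goals

/-!
# MP_fc0446_an, packet OIP-E11: bound on branching permutations
-/

namespace Pool.Agent.Helper81.OIP

open MeasureTheory Pool.Agent.Helper32.OIP Pool.Agent.Helper58.Orb

/-- Decomposition of an event by the value of a finite valued function. -/
lemma real_pred {Ω M : Type} [MeasurableSpace Ω] [Fintype M] (μ : Measure Ω)
    [IsProbabilityMeasure μ] (X : Ω → M) (hX : ∀ m, MeasurableSet {ω | X ω = m}) (P : M → Prop)
    [DecidablePred P] :
    μ.real {ω | P (X ω)} = ∑ m ∈ Finset.univ.filter P, μ.real {ω | X ω = m} := by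
  have e : {ω | P (X ω)} = ⋃ m ∈ Finset.univ.filter P, {ω | X ω = m} := by
    ext ω
    simp
  rw [e, measureReal_biUnion_finset]
  · intro m _ m' _ hne
    rw [Function.onFun, Set.disjoint_left]
    intro ω h1 h2
    exact hne (h1.symm.trans h2)
  · exact fun m _ => hX m

theorem e11 : GoalE11 := by
  intro hMA1 hE9 hE10 hE8 A E _ _ _ S D _ _ T ν _ π hπ hedge
  classical
  have hprob : IsProbabilityMeasure (pm A ν) := by
    unfold pm
    infer_instance
  set μ := pm A ν with hμ
  -- the shifted permutations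
  have hsh : ∀ g : A, MeasurePreserving (sh g : (A → E) → (A → E)) μ μ :=
    fun g => hMA1.2.2 A E ν g
  have hmeas : ∀ (g : A) (σ : Equiv.Perm D), MeasurableSet {z | π (sh g z) = σ} :=
    fun g σ => (hsh g).measurable (hπ σ)
  have hEnt : ∀ g : A, Ent μ (fun z => π (sh g z)) = Ent μ π := by
    intro g
    unfold Ent
    refine Finset.sum_congr rfl fun σ _ => ?_
    congr 1
    exact (hsh g).measureReal_preimage (hπ σ).nullMeasurableSet
  -- the entropy inequality
  have h9 : ∀ s, Ent μ (fun z => (π z, π (sh (T.dir s) z))) ≤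
      2 * Ent μ π - Ent μ (fun z => π z s) := by
    intro s
    have h := hE9 (A → E) (Equiv.Perm D) (Equiv.Perm D) D μ π (fun z => π (sh (T.dir s) z))
      (fun z => π z s) (fun σ => σ s) (fun σ => T.inv (σ (T.inv s))) hπ (hmeas _)
      (Filter.Eventually.of_forall fun z => rfl) (by
        filter_upwards [hedge] with z hz
        rw [hz s, T.inv_inv])
    rw [hEnt] at h
    linarith
  have h8 := hE8 A E (Equiv.Perm D) S D T ν π hπ
  rw [← hμ] at h8
  have hsum : ∑ s, Ent μ (fun z => π z s) ≤ 2 * Ent μ π := by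
    have h1 : ∑ s, Ent μ (fun z => (π z, π (sh (T.dir s) z))) ≤
        ∑ s, (2 * Ent μ π - Ent μ (fun z => π z s)) := Finset.sum_le_sum fun s _ => h9 s
    rw [Finset.sum_sub_distrib, Finset.sum_const, Finset.card_univ, nsmul_eq_mul] at h1
    linarith
  -- the numbers
  have hs : ∀ s t, μ.real {z | π z s = t} =
      ∑ σ ∈ Finset.univ.filter (fun σ : Equiv.Perm D => σ s = t), μ.real {z | π z = σ} :=
    fun s t => real_pred μ π hπ (fun σ => σ s = t)
  have h10 := hE10 D (fun σ => μ.real {z | π z = σ}) (fun σ => measureReal_nonneg)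
    (by
      have h := real_pred μ π hπ (fun _ => True)
      rw [Finset.filter_true] at h
      rw [← h]
      simp)
    (by
      have h1 : ∑ s, Ent μ (fun z => π z s) = ∑ s, ∑ t, Real.negMulLog
          (∑ σ ∈ Finset.univ.filter (fun σ : Equiv.Perm D => σ s = t),
            μ.real {z | π z = σ}) := by
        refine Finset.sum_congr rfl fun s _ => ?_
        unfold Ent
        refine Finset.sum_congr rfl fun t _ => ?_
        rw [hs s t]
      rw [h1] at hsum
      unfold Ent at hsum
      convert hsum using 1)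
  have hb : μ.real {z | Br (π z)} = ∑ σ ∈ Finset.univ.filter
      (fun σ : Equiv.Perm D => σ ≠ 1 ∧ ¬ σ.IsSwap), μ.real {z | π z = σ} :=
    real_pred μ π hπ (fun σ => σ ≠ 1 ∧ ¬ σ.IsSwap)
  have h1 : μ.real {z | π z ≠ 1} = 1 - μ.real {z | π z = 1} := by
    have := probReal_compl_eq_one_sub (μ := μ) (hπ 1)
    exact this
  rw [hb, h1]
  convert h10 using 1

end Pool.Agent.Helper81.OIP
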